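import Mathlib

/-!
Compactness: Kuratowski limits of closed sets, an Arzela-Ascoli theorem and a Montel theorem for
sequences of functions whose domains of regularity may vary with the index.
-/

open Set Metric Topology Filter

namespace Pool.Agent.MP099f24

/-- `K∞` is the Kuratowski (local Hausdorff) limit of the sets `K j`. -/
def KLim (K : ℕ → Set ℂ) (Kinf : Set ℂ) : Prop :=
  (∀ x ∈ Kinf, ∀ ε > 0, ∀ᶠ j in atTop, (K j ∩ ball x ε).Nonempty) ∧
    ∀ x, x ∉ Kinf → ∃ ε > 0, ∀ᶠ j in atTop, K j ∩ ball x ε = ∅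

/-- every sequence of sets has a Kuratowski convergent subsequence -/
theorem tp_klim_exists (K : ℕ → Set ℂ) : ∃ (φ : ℕ → ℕ) (Kinf : Set ℂ), StrictMono φ ∧
    IsClosed Kinf ∧ KLim (fun j => K (φ j)) Kinf := by
  classical
  set d : ℕ → ℂ := TopologicalSpace.denseSeq ℂ with hd
  have hdd : DenseRange d := TopologicalSpace.denseRange_denseSeq ℂ
  -- the balls `B (n, m)`
  set B : ℕ × ℕ → Set ℂ := fun p => ball (d p.1) (1 / (p.2 + 1 : ℝ)) with hB
  set f : ℕ → (ℕ × ℕ → Bool) := fun j p => decide ((K j ∩ B p).Nonempty) with hf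
  obtain ⟨a, -, φ, hφ, hlim⟩ := isCompact_univ.tendsto_subseq (x := f) fun _ => mem_univ _
  have hev : ∀ p, ∀ᶠ j in atTop, f (φ j) p = a p := by
    intro p
    have h1 : Tendsto (fun j => f (φ j) p) atTop (𝓝 (a p)) := (tendsto_pi_nhds.1 hlim) p
    rw [nhds_discrete, tendsto_pure] at h1
    exact h1
  -- every neighbourhood contains one of the balls
  have hbasis : ∀ x : ℂ, ∀ ε > 0, ∃ p, x ∈ B p ∧ B p ⊆ ball x ε := by
    intro x ε hε
    obtain ⟨m, hm⟩ := exists_nat_gt (2 / ε)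
    have hm0 : (0 : ℝ) < m + 1 := by positivity
    have hm1 : 2 / (m + 1 : ℝ) < ε := by
      rw [div_lt_iff₀ hm0]
      rw [div_lt_iff₀ hε] at hm
      nlinarith
    obtain ⟨n, hn⟩ := hdd.exists_dist_lt x (show (0 : ℝ) < 1 / (m + 1) by positivity)
    refine ⟨(n, m), ?_, ?_⟩
    · change dist x (d n) < 1 / (m + 1 : ℝ)
      exact hn
    · intro y hy
      have hy' : dist y (d n) < 1 / (m + 1 : ℝ) := hy
      rw [mem_ball]
      have h2 : (2 : ℝ) / (m + 1) = 1 / (m + 1) + 1 / (m + 1) := by ring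
      calc dist y x ≤ dist y (d n) + dist (d n) x := dist_triangle _ _ _
        _ < 1 / (m + 1) + 1 / (m + 1) := by
          rw [dist_comm (d n) x]
          exact add_lt_add hy' hn
        _ < ε := by rw [← h2]; exact hm1
  refine ⟨φ, {x | ∀ p, x ∈ B p → a p = true}, hφ, ?_, ?_, ?_⟩
  · rw [← isOpen_compl_iff, isOpen_iff_mem_nhds]
    intro x hx
    simp only [mem_compl_iff, mem_ofPred_eq, not_forall] at hx
    obtain ⟨p, hxp, hap⟩ := hx
    filter_upwards [isOpen_ball.mem_nhds hxp] with y hy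
    simp only [mem_compl_iff, mem_ofPred_eq, not_forall]
    exact ⟨p, hy, hap⟩
  · intro x hx ε hε
    obtain ⟨p, hxp, hpε⟩ := hbasis x ε hε
    filter_upwards [hev p] with j hj
    rw [hx p hxp] at hj
    have h1 : (K (φ j) ∩ B p).Nonempty := by simpa [hf] using hj
    exact h1.mono (inter_subset_inter_right _ hpε)
  · intro x hx
    simp only [mem_ofPred_eq, not_forall] at hx
    obtain ⟨p, hxp, hap⟩ := hx
    obtain ⟨ε, hε, hεp⟩ := Metric.isOpen_iff.1 (isOpen_ball : IsOpen (B p)) x hxp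
    refine ⟨ε, hε, ?_⟩
    filter_upwards [hev p] with j hj
    have hap' : a p = false := by simpa using hap
    rw [hap'] at hj
    have h1 : ¬ (K (φ j) ∩ B p).Nonempty := by simpa [hf] using hj
    rw [not_nonempty_iff_eq_empty] at h1
    rw [← subset_empty_iff, ← h1]
    exact inter_subset_inter_right _ hεp

/-- a subsequence has the same limit -/
theorem KLim.comp {K : ℕ → Set ℂ} {Kinf : Set ℂ} (h : KLim K Kinf) {φ : ℕ → ℕ}
    (hφ : Tendsto φ atTop atTop) : KLim (fun j => K (φ j)) Kinf :=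
  ⟨fun x hx ε hε => hφ.eventually (h.1 x hx ε hε), fun x hx => by
    obtain ⟨ε, hε, h1⟩ := h.2 x hx
    exact ⟨ε, hε, hφ.eventually h1⟩⟩

theorem KLim.isClosed {K : ℕ → Set ℂ} {Kinf : Set ℂ} (h : KLim K Kinf) : IsClosed Kinf := by
  rw [← isOpen_compl_iff, Metric.isOpen_iff]
  intro x hx
  obtain ⟨ε, hε, h1⟩ := h.2 x hx
  refine ⟨ε / 2, by positivity, ?_⟩
  intro y hy hyK
  obtain ⟨j, hj1, hj2⟩ := (h1.and (h.1 y hyK (ε / 2) (by positivity))).exists
  obtain ⟨z, hz1, hz2⟩ := hj2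
  have h3 : z ∈ K j ∩ ball x ε := by
    refine ⟨hz1, ?_⟩
    rw [mem_ball] at hy hz2 ⊢
    linarith [dist_triangle z y x]
  rw [hj1] at h3
  exact h3

/-- compact sets off the limit are eventually off the sets -/
theorem KLim.disjoint {K : ℕ → Set ℂ} {Kinf : Set ℂ} (h : KLim K Kinf) {C : Set ℂ}
    (hC : IsCompact C) (hd : Disjoint C Kinf) : ∀ᶠ j in atTop, Disjoint C (K j) := by
  have h1 : ∀ x ∈ C, ∃ ε > 0, ∀ᶠ j in atTop, K j ∩ ball x ε = ∅ := fun x hx =>
    h.2 x (disjoint_left.1 hd hx)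
  choose! r hr hrd using h1
  obtain ⟨T, hT, hcov⟩ := hC.elim_nhds_subcover (fun x => ball x (r x))
    (fun x hx => ball_mem_nhds x (hr x hx))
  have h2 : ∀ᶠ j in atTop, ∀ x ∈ T, K j ∩ ball x (r x) = ∅ :=
    (Filter.eventually_all_finset T).2 fun x hx => hrd x (hT x hx)
  filter_upwards [h2] with j hj
  rw [disjoint_left]
  intro y hy hyK
  obtain ⟨x, hx, hyx⟩ := mem_iUnion₂.1 (hcov hy)
  have h3 : y ∈ K j ∩ ball x (r x) := ⟨hyK, hyx⟩
  rw [hj x hx] at h3
  exact h3

/-- on compact sets the sets are eventually close to the limit -/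
theorem KLim.near {K : ℕ → Set ℂ} {Kinf : Set ℂ} (h : KLim K Kinf) {C : Set ℂ}
    (hC : IsCompact C) {ε : ℝ} (hε : 0 < ε) :
    ∀ᶠ j in atTop, ∀ y ∈ K j ∩ C, ∃ x ∈ Kinf, dist y x < ε := by
  have h1 : IsCompact (C \ thickening ε Kinf) := hC.diff isOpen_thickening
  have h2 : Disjoint (C \ thickening ε Kinf) Kinf :=
    disjoint_left.2 fun x hx hxK => hx.2 (self_subset_thickening hε _ hxK)
  filter_upwards [h.disjoint h1 h2] with j hj
  intro y hy
  by_contra hcon
  push Not at hcon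
  refine disjoint_left.1 hj ⟨hy.2, ?_⟩ hy.1
  rw [mem_thickening_iff]
  push Not
  exact hcon

/-- on compact sets the limit is eventually close to the sets -/
theorem KLim.near' {K : ℕ → Set ℂ} {Kinf : Set ℂ} (h : KLim K Kinf) {C : Set ℂ}
    (hC : IsCompact C) {ε : ℝ} (hε : 0 < ε) :
    ∀ᶠ j in atTop, ∀ y ∈ Kinf ∩ C, ∃ x ∈ K j, dist y x < ε := by
  have hKc : IsCompact (Kinf ∩ C) := hC.inter_left h.isClosed
  obtain ⟨T, hT, hcov⟩ := hKc.elim_nhds_subcover (fun x => ball x (ε / 2))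
    (fun x _ => ball_mem_nhds x (by positivity))
  have h2 : ∀ᶠ j in atTop, ∀ x ∈ T, (K j ∩ ball x (ε / 2)).Nonempty :=
    (Filter.eventually_all_finset T).2 fun x hx => h.1 x (hT x hx).1 (ε / 2) (by positivity)
  filter_upwards [h2] with j hj
  intro y hy
  obtain ⟨x, hx, hyx⟩ := mem_iUnion₂.1 (hcov hy)
  obtain ⟨z, hz1, hz2⟩ := hj x hx
  refine ⟨z, hz1, ?_⟩
  rw [mem_ball] at hyx hz2
  rw [dist_comm] at hz2
  linarith [dist_triangle y x z]

/-- **Arzela-Ascoli** with asymptotic hypotheses -/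
theorem tp_ascoli {X E : Type*} [MetricSpace X] [TopologicalSpace.SeparableSpace X]
    [MetricSpace E] [ProperSpace E] [Nonempty X] {V : Set X} (hV : IsOpen V) {f : ℕ → X → E}
    (e₀ : E) (hb : ∀ x ∈ V, ∃ M : ℝ, ∀ᶠ j in atTop, dist (f j x) e₀ ≤ M)
    (he : ∀ x ∈ V, ∀ ε > 0, ∃ δ > 0, ∀ᶠ j in atTop, ∀ y ∈ ball x δ, dist (f j y) (f j x) ≤ ε) :
    ∃ (φ : ℕ → ℕ) (F : X → E), StrictMono φ ∧
      TendstoLocallyUniformlyOn (fun j => f (φ j)) F atTop V ∧ ContinuousOn F V := by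
  classical
  have : Nonempty E := ⟨e₀⟩
  set d : ℕ → X := TopologicalSpace.denseSeq X with hd
  have hdd : DenseRange d := TopologicalSpace.denseRange_denseSeq X
  choose! M hM using hb
  -- a bounded version of the values at the dense sequence
  set Q : ℕ → Set E := fun n => closedBall e₀ (max (M (d n)) 0) with hQ
  set g : ℕ → (ℕ → E) := fun j n => if f j (d n) ∈ Q n then f j (d n) else e₀ with hg
  have hgQ : ∀ j, g j ∈ Set.pi univ Q := by
    intro j n _
    change (if f j (d n) ∈ Q n then f j (d n) else e₀) ∈ Q n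
    split_ifs with h
    · exact h
    · exact mem_closedBall_self (le_max_right _ _)
  have hcomp : IsCompact (Set.pi univ Q) := isCompact_univ_pi fun n => isCompact_closedBall _ _
  obtain ⟨a, -, φ, hφ, hlim⟩ := hcomp.tendsto_subseq hgQ
  have hφt := hφ.tendsto_atTop
  have hconv : ∀ n, d n ∈ V → Tendsto (fun j => f (φ j) (d n)) atTop (𝓝 (a n)) := by
    intro n hn
    have h1 : Tendsto (fun j => g (φ j) n) atTop (𝓝 (a n)) := (tendsto_pi_nhds.1 hlim) n
    refine h1.congr' ?_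
    filter_upwards [hφt.eventually (hM _ hn)] with j hj
    change (if f (φ j) (d n) ∈ Q n then f (φ j) (d n) else e₀) = f (φ j) (d n)
    rw [if_pos]
    exact mem_closedBall.2 (hj.trans (le_max_left _ _))
  -- pointwise Cauchy
  have hcau : ∀ x ∈ V, ∃ l, Tendsto (fun j => f (φ j) x) atTop (𝓝 l) := by
    intro x hx
    apply cauchySeq_tendsto_of_complete
    rw [Metric.cauchySeq_iff']
    intro ε hε
    obtain ⟨δ, hδ, h1⟩ := he x hx (ε / 4) (by positivity)
    obtain ⟨δ', hδ', hδV⟩ := Metric.isOpen_iff.1 hV x hx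
    obtain ⟨n, hn⟩ := hdd.exists_dist_lt x (lt_min hδ hδ')
    have hn1 : d n ∈ ball x δ := by
      rw [mem_ball, dist_comm]
      exact hn.trans_le (min_le_left _ _)
    have hn2 : d n ∈ V := hδV (by
      rw [mem_ball, dist_comm]
      exact hn.trans_le (min_le_right _ _))
    have h2 : ∀ᶠ j in atTop, dist (f (φ j) (d n)) (a n) < ε / 4 :=
      (Metric.tendsto_nhds.1 (hconv n hn2)) _ (by positivity)
    obtain ⟨N, hN⟩ := eventually_atTop.1 (h2.and (hφt.eventually h1))
    refine ⟨N, fun j hj => ?_⟩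
    obtain ⟨e1, e2⟩ := hN j hj
    obtain ⟨e3, e4⟩ := hN N le_rfl
    have e5 := e2 _ hn1
    have e6 := e4 _ hn1
    rw [dist_comm] at e5
    calc dist (f (φ j) x) (f (φ N) x) ≤ dist (f (φ j) x) (f (φ j) (d n)) +
          dist (f (φ j) (d n)) (f (φ N) x) := dist_triangle _ _ _
      _ ≤ dist (f (φ j) x) (f (φ j) (d n)) + (dist (f (φ j) (d n)) (a n) +
          dist (a n) (f (φ N) x)) := by gcongr; exact dist_triangle _ _ _
      _ ≤ dist (f (φ j) x) (f (φ j) (d n)) + (dist (f (φ j) (d n)) (a n) +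
          (dist (a n) (f (φ N) (d n)) + dist (f (φ N) (d n)) (f (φ N) x))) := by
          gcongr; exact dist_triangle _ _ _
      _ < ε := by
          rw [dist_comm (a n)]
          linarith
  choose! F hF using hcau
  have hFe : ∀ x ∈ V, ∀ ε > 0, ∃ δ > 0, ball x δ ⊆ V ∧ (∀ y ∈ ball x δ, dist (F y) (F x) ≤ ε) ∧
      ∀ᶠ j in atTop, ∀ y ∈ ball x δ, dist (f (φ j) y) (f (φ j) x) ≤ ε := by
    intro x hx ε hε
    obtain ⟨δ, hδ, h1⟩ := he x hx ε hε
    obtain ⟨δ', hδ', hδV⟩ := Metric.isOpen_iff.1 hV x hx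
    have h3 : ball x (min δ δ') ⊆ V := (ball_subset_ball (min_le_right _ _)).trans hδV
    refine ⟨min δ δ', lt_min hδ hδ', h3, ?_, ?_⟩
    · intro y hy
      have h2 := (hF y (h3 hy)).dist (hF x hx)
      refine le_of_tendsto h2 ?_
      filter_upwards [hφt.eventually h1] with j hj
      exact hj y (ball_subset_ball (min_le_left _ _) hy)
    · filter_upwards [hφt.eventually h1] with j hj
      intro y hy
      exact hj y (ball_subset_ball (min_le_left _ _) hy)
  refine ⟨φ, F, hφ, ?_, ?_⟩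
  · rw [Metric.tendstoLocallyUniformlyOn_iff]
    intro ε hε x hx
    obtain ⟨δ, hδ, h1, h2, h3⟩ := hFe x hx (ε / 4) (by positivity)
    refine ⟨ball x δ, mem_nhdsWithin_of_mem_nhds (ball_mem_nhds x hδ), ?_⟩
    have h4 : ∀ᶠ j in atTop, dist (f (φ j) x) (F x) < ε / 4 :=
      (Metric.tendsto_nhds.1 (hF x hx)) _ (by positivity)
    filter_upwards [h3, h4] with j hj3 hj4
    intro y hy
    have e1 := h2 y hy
    have e2 := hj3 y hy
    rw [dist_comm] at hj4 e2
    calc dist (F y) (f (φ j) y) ≤ dist (F y) (F x) + dist (F x) (f (φ j) y) :=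
          dist_triangle _ _ _
      _ ≤ dist (F y) (F x) + (dist (F x) (f (φ j) x) + dist (f (φ j) x) (f (φ j) y)) := by
          gcongr; exact dist_triangle _ _ _
      _ < ε := by linarith
  · intro x hx
    refine ContinuousAt.continuousWithinAt ?_
    rw [Metric.continuousAt_iff]
    intro ε hε
    obtain ⟨δ, hδ, h1, h2, h3⟩ := hFe x hx (ε / 2) (by positivity)
    exact ⟨δ, hδ, fun y hy => (h2 y hy).trans_lt (by linarith)⟩

/-- Cauchy estimate on a ball -/
theorem tp_cauchy_lip {f : ℂ → ℂ} {x : ℂ} {r M : ℝ} (hr : 0 < r)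
    (hf : DifferentiableOn ℂ f (ball x r)) (hM : ∀ y ∈ ball x r, ‖f y‖ ≤ M) :
    ∀ y ∈ ball x (r / 2), ∀ z ∈ ball x (r / 2), ‖f z - f y‖ ≤ (4 * M / r) * ‖z - y‖ := by
  have hder : ∀ y ∈ ball x (r / 2), ‖deriv f y‖ ≤ 4 * M / r := by
    intro y hy
    have hsub : closedBall y (r / 4) ⊆ ball x r := by
      intro z hz
      rw [mem_ball] at hy ⊢
      rw [mem_closedBall] at hz
      linarith [dist_triangle z y x]
    have h1 := Complex.norm_deriv_le_of_forall_mem_sphere_norm_le (c := y) (R := r / 4)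
      (f := f) (C := M) (by positivity) ((hf.mono hsub).diffContOnCl_ball subset_rfl)
      (fun z hz => hM z (hsub (sphere_subset_closedBall hz)))
    calc ‖deriv f y‖ ≤ M / (r / 4) := h1
      _ = 4 * M / r := by field_simp
  intro y hy z hz
  refine (convex_ball x (r / 2)).norm_image_sub_le_of_norm_deriv_le (𝕜 := ℂ) ?_ hder hy hz
  intro w hw
  exact (hf w (ball_subset_ball (by linarith) hw)).differentiableAt
    (isOpen_ball.mem_nhds (ball_subset_ball (by linarith) hw))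

/-- **Montel's theorem** with varying domains -/
theorem tp_montel {V : Set ℂ} (hV : IsOpen V) {f : ℕ → ℂ → ℂ}
    (h : ∀ x ∈ V, ∃ r > 0, ∃ M : ℝ, ∀ᶠ j in atTop,
      DifferentiableOn ℂ (f j) (ball x r) ∧ ∀ y ∈ ball x r, ‖f j y‖ ≤ M) :
    ∃ (φ : ℕ → ℕ) (F : ℂ → ℂ), StrictMono φ ∧ DifferentiableOn ℂ F V ∧
      TendstoLocallyUniformlyOn (fun j => f (φ j)) F atTop V := by
  obtain ⟨φ, F, hφ, hF, -⟩ := tp_ascoli (X := ℂ) (E := ℂ) hV (f := f) 0 (by
    intro x hx
    obtain ⟨r, hr, M, hM⟩ := h x hx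
    refine ⟨M, ?_⟩
    filter_upwards [hM] with j hj
    rw [dist_zero_right]
    exact hj.2 x (mem_ball_self hr)) (by
    intro x hx ε hε
    obtain ⟨r, hr, M, hM⟩ := h x hx
    have hden : 0 < 4 * |M| / r + 1 := by positivity
    refine ⟨min (r / 2) (ε / (4 * |M| / r + 1)), lt_min (by positivity) (by positivity), ?_⟩
    filter_upwards [hM] with j hj
    intro y hy
    rw [mem_ball, lt_min_iff] at hy
    have h1 := tp_cauchy_lip hr hj.1 hj.2 x (mem_ball_self (by positivity)) y hy.1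
    rw [dist_eq_norm]
    refine h1.trans ?_
    have h2 : ‖y - x‖ ≤ ε / (4 * |M| / r + 1) := by
      rw [← dist_eq_norm]
      exact hy.2.le
    calc 4 * M / r * ‖y - x‖ ≤ (4 * |M| / r + 1) * ‖y - x‖ := by
          gcongr
          have : 4 * M / r ≤ 4 * |M| / r := by
            gcongr
            exact le_abs_self M
          linarith
      _ ≤ (4 * |M| / r + 1) * (ε / (4 * |M| / r + 1)) := by gcongr
      _ = ε := by field_simp)
  refine ⟨φ, F, hφ, ?_, hF⟩
  intro x hx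
  obtain ⟨r, hr, M, hM⟩ := h x hx
  obtain ⟨δ, hδ, hδV⟩ := Metric.isOpen_iff.1 hV x hx
  have hsub : ball x (min r δ) ⊆ V := (ball_subset_ball (min_le_right _ _)).trans hδV
  have h1 : DifferentiableOn ℂ F (ball x (min r δ)) := by
    refine (hF.mono hsub).differentiableOn ?_ isOpen_ball
    filter_upwards [hφ.tendsto_atTop.eventually hM] with j hj
    exact hj.1.mono (ball_subset_ball (min_le_left _ _))
  exact ((h1 x (mem_ball_self (lt_min hr hδ))).differentiableAt
    (ball_mem_nhds x (lt_min hr hδ))).differentiableWithinAt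

end Pool.Agent.MP099f24
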