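import Mathlib
import Pool.Agent.Lib.MP_099f24_an.TM.Defs
import Pool.Agent.Lib.MP_099f24_an.SD.Polar

/-!
Mean value estimate for holomorphic functions, and the calculus of `cgr`.
-/

open Set Metric Topology Filter MeasureTheory
open scoped ENNReal

namespace Pool.Agent.MP099f24

/-! ### the calculus of `cgr` -/

theorem tpc_re (w : ℂ → ℝ) (x : ℂ) : (cgr w x).re = fderiv ℝ w x 1 := by
  simp [cgr]

theorem tpc_im (w : ℂ → ℝ) (x : ℂ) : (cgr w x).im = fderiv ℝ w x Complex.I := by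
  simp [cgr]

/-- the derivative is the scalar product with `cgr` -/
theorem tpc_apply (w : ℂ → ℝ) (x v : ℂ) : fderiv ℝ w x v = inner ℝ (cgr w x) v := by
  have h : v = (v.re : ℝ) • (1 : ℂ) + (v.im : ℝ) • Complex.I := by
    apply Complex.ext <;> simp
  have h1 : fderiv ℝ w x v = v.re * fderiv ℝ w x 1 + v.im * fderiv ℝ w x Complex.I := by
    conv_lhs => rw [h]
    rw [map_add, map_smul, map_smul, smul_eq_mul, smul_eq_mul]
  rw [h1, Complex.inner, ← tpc_re, ← tpc_im]
  simp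

theorem tpc_fderiv (w : ℂ → ℝ) (x : ℂ) : fderiv ℝ w x = innerSL ℝ (cgr w x) := by
  ext v
  rw [tpc_apply]
  rfl

theorem tpc_norm (w : ℂ → ℝ) (x : ℂ) : ‖fderiv ℝ w x‖ = ‖cgr w x‖ := by
  rw [tpc_fderiv]
  exact innerSL_apply_norm (𝕜 := ℝ) _

theorem tpc_of_hasFDerivAt {w : ℂ → ℝ} {x p : ℂ} (h : HasFDerivAt w (innerSL ℝ p) x) :
    cgr w x = p := by
  apply Complex.ext
  · rw [tpc_re, h.fderiv]
    simp [Complex.inner]
  · rw [tpc_im, h.fderiv]
    simp [Complex.inner]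

/-! ### the mean value estimate -/

/-- on circles -/
theorem tp_mean_circle {f : ℂ → ℂ} {x : ℂ} {r s : ℝ} (hs : 0 < s) (hsr : s < r)
    (hf : DifferentiableOn ℂ f (ball x r)) :
    ENNReal.ofReal (2 * Real.pi * ‖f x‖ ^ 2) ≤
      ∫⁻ θ in Ioo (-Real.pi) Real.pi, ‖f (pc x s θ)‖ₑ ^ 2 := by
  have hsub : closedBall x s ⊆ ball x r := closedBall_subset_ball hsr
  have hf2 : DifferentiableOn ℂ (fun z => f z ^ 2) (ball x r) := hf.pow 2
  have hcl : DiffContOnCl ℂ (fun z => f z ^ 2) (ball x |s|) := by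
    rw [abs_of_pos hs]
    exact (hf2.mono hsub).diffContOnCl_ball subset_rfl
  have hav := hcl.circleAverage
  have hcont : Continuous (fun θ : ℝ => f (pc x s θ)) := by
    refine hf.continuousOn.comp_continuous
      ((polar_pc_cont x).comp (continuous_const.prodMk continuous_id)) fun θ => ?_
    rw [mem_ball, polar_dist x hs]
    exact hsr
  have hper : Function.Periodic (fun θ : ℝ => f (pc x s θ)) (2 * Real.pi) := by
    intro θ
    have : pc x s (θ + 2 * Real.pi) = pc x s θ := by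
      unfold pc er
      push_cast
      rw [add_mul, Complex.exp_add]
      have h1 : Complex.exp (2 * (Real.pi : ℂ) * Complex.I) = 1 := Complex.exp_two_pi_mul_I
      rw [h1, mul_one]
    simp only [this]
  have hcm : ∀ θ : ℝ, circleMap x s θ = pc x s θ := fun θ => by
    rw [circleMap, pc, er]
  have h1 : (2 * Real.pi) * ‖f x‖ ^ 2 ≤ ∫ θ in (0 : ℝ)..(2 * Real.pi), ‖f (pc x s θ)‖ ^ 2 := by
    have h2 : ‖∫ θ in (0 : ℝ)..(2 * Real.pi), f (pc x s θ) ^ 2‖ = (2 * Real.pi) * ‖f x‖ ^ 2 := by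
      rw [Real.circleAverage] at hav
      simp only [hcm] at hav
      have h3 : ∫ θ in (0 : ℝ)..(2 * Real.pi), f (pc x s θ) ^ 2 = (2 * Real.pi : ℝ) • f x ^ 2 := by
        rw [← hav, smul_smul, mul_inv_cancel₀ (by positivity), one_smul]
      rw [h3, norm_smul, norm_pow, Real.norm_eq_abs, abs_of_pos (by positivity)]
    rw [← h2]
    refine (intervalIntegral.norm_integral_le_integral_norm (by positivity)).trans (le_of_eq ?_)
    simp_rw [norm_pow]
  have hcont2 : Continuous (fun θ : ℝ => ‖f (pc x s θ)‖ ^ 2) := hcont.norm.pow 2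
  have h4 : ∫ θ in (0 : ℝ)..(2 * Real.pi), ‖f (pc x s θ)‖ ^ 2 =
      ∫ θ in Ioo (-Real.pi) Real.pi, ‖f (pc x s θ)‖ ^ 2 := by
    have hper2 : Function.Periodic (fun θ : ℝ => ‖f (pc x s θ)‖ ^ 2) (2 * Real.pi) := by
      intro θ
      have := hper θ
      simp only at this
      simp only [this]
    have h5 := hper2.intervalIntegral_add_eq 0 (-Real.pi)
    rw [zero_add] at h5
    rw [h5, show -Real.pi + 2 * Real.pi = Real.pi by ring,
      intervalIntegral.integral_of_le (by linarith [Real.pi_pos]), integral_Ioc_eq_integral_Ioo]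
  have hint : IntegrableOn (fun θ : ℝ => ‖f (pc x s θ)‖ ^ 2) (Ioo (-Real.pi) Real.pi) :=
    (hcont2.integrableOn_Icc).mono_set Ioo_subset_Icc_self
  have h6 : ∫⁻ θ in Ioo (-Real.pi) Real.pi, ‖f (pc x s θ)‖ₑ ^ 2 =
      ENNReal.ofReal (∫ θ in Ioo (-Real.pi) Real.pi, ‖f (pc x s θ)‖ ^ 2) := by
    rw [ofReal_integral_eq_lintegral_ofReal hint (Eventually.of_forall fun θ => by positivity)]
    refine lintegral_congr fun θ => ?_
    rw [← ofReal_norm, ENNReal.ofReal_pow (norm_nonneg _)]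
  rw [h6, ← h4]
  exact ENNReal.ofReal_le_ofReal h1

/-- on discs -/
theorem tp_mean {f : ℂ → ℂ} {x : ℂ} {r : ℝ} (hr : 0 < r) (hf : DifferentiableOn ℂ f (ball x r)) :
    ENNReal.ofReal (Real.pi * r ^ 2 * ‖f x‖ ^ 2) ≤ ∫⁻ y in ball x r, ‖f y‖ₑ ^ 2 := by
  have hP : MeasurableSet (Ioo (0 : ℝ) r) := measurableSet_Ioo
  have hP0 : Ioo (0 : ℝ) r ⊆ Ioi 0 := fun s hs => hs.1
  have hsq : DifferentiableOn ℂ f (ball x r) := hf
  have hmeas : AEMeasurable (fun p : ℝ × ℝ => ENNReal.ofReal p.1 * ‖f (pc x p.1 p.2)‖ₑ ^ 2)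
      ((volume.restrict (Ioo (0 : ℝ) r)).prod (volume.restrict (Ioo (-Real.pi) Real.pi))) := by
    refine AEMeasurable.mul (ENNReal.measurable_ofReal.comp measurable_fst).aemeasurable ?_
    refine AEMeasurable.pow_const ?_ 2
    have hco : ContinuousOn (fun p : ℝ × ℝ => f (pc x p.1 p.2))
        (Ioo (0 : ℝ) r ×ˢ Ioo (-Real.pi) Real.pi) := by
      refine hf.continuousOn.comp (polar_pc_cont x).continuousOn fun p hp => ?_
      rw [mem_ball, polar_dist x hp.1.1]
      exact hp.1.2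
    have h1 := hco.aestronglyMeasurable (μ := (volume : Measure (ℝ × ℝ)))
      (measurableSet_Ioo.prod measurableSet_Ioo)
    rw [Measure.volume_eq_prod, ← Measure.prod_restrict] at h1
    exact h1.enorm
  have h1 : ∫⁻ y in ball x r, ‖f y‖ₑ ^ 2 = ∫⁻ s in Ioo (0 : ℝ) r, ENNReal.ofReal s *
      ∫⁻ θ in Ioo (-Real.pi) Real.pi, ‖f (pc x s θ)‖ₑ ^ 2 := by
    rw [setLIntegral_congr (polar_ball_ae x hr), polar_lintegral x hP hP0, Measure.volume_eq_prod,
      ← Measure.prod_restrict, lintegral_prod _ hmeas]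
    refine lintegral_congr fun s => ?_
    rw [lintegral_const_mul' _ _ ENNReal.ofReal_ne_top]
  rw [h1]
  calc ENNReal.ofReal (Real.pi * r ^ 2 * ‖f x‖ ^ 2)
      = ∫⁻ s in Ioo (0 : ℝ) r, ENNReal.ofReal (s * (2 * Real.pi * ‖f x‖ ^ 2)) := by
        have hint : IntegrableOn (fun s : ℝ => s * (2 * Real.pi * ‖f x‖ ^ 2)) (Ioo 0 r) :=
          ((continuous_id.mul continuous_const).integrableOn_Icc).mono_set Ioo_subset_Icc_self
        rw [← ofReal_integral_eq_lintegral_ofReal hint]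
        · congr 1
          rw [integral_mul_const, ← integral_Ioc_eq_integral_Ioo,
            ← intervalIntegral.integral_of_le hr.le, integral_id]
          ring
        · filter_upwards [ae_restrict_mem measurableSet_Ioo] with s hs
          have : 0 ≤ s := hs.1.le
          positivity
    _ ≤ _ := by
        refine setLIntegral_mono' measurableSet_Ioo fun s hs => ?_
        rw [ENNReal.ofReal_mul hs.1.le]
        gcongr
        exact tp_mean_circle hs.1 hs.2 hf

/-- the gradient bound -/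
theorem tp_grad_bound {f : ℂ → ℂ} {x : ℂ} {r : ℝ} (hr : 0 < r)
    (hf : DifferentiableOn ℂ f (ball x r))
    (hE : ∫⁻ y in ball x r, ‖f y‖ₑ ^ 2 ≤ ENNReal.ofReal (2 * Real.pi * r)) :
    ‖f x‖ ^ 2 ≤ 2 / r := by
  have h1 := (tp_mean hr hf).trans hE
  rw [ENNReal.ofReal_le_ofReal_iff (by positivity)] at h1
  rw [le_div_iff₀ hr]
  have h2 : (Real.pi * r) * (‖f x‖ ^ 2 * r) ≤ (Real.pi * r) * 2 := by nlinarith
  exact le_of_mul_le_mul_left h2 (by positivity)

end Pool.Agent.MP099f24
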