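import Mathlib
import Pool.Agent.Lib.MP_099f24_an.TM.Defs
import Pool.Agent.Lib.MP_099f24_an.TP.Compact
import Pool.Agent.Lib.MP_099f24_an.TP.Mean

/-!
Extraction of convergent subsequences of pairs `(u_n, K_n)` with the energy bound
`∫_{B_r(x)} |∇u_n|² ≤ 2πr`.
-/

open Set Metric Topology Filter MeasureTheory
open scoped ENNReal ContDiff

namespace Pool.Agent.MP099f24

/-- pointwise bounds propagate along connected sets -/
theorem tp_bdd_conn {V : Set ℂ} (hV : IsOpen V) {W : Set ℂ} (hW : IsPreconnected W) (hWV : W ⊆ V)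
    {wn : ℕ → ℂ → ℝ} (hloc : ∀ x ∈ V, ∃ δ > 0, ∃ C : ℝ, ∀ᶠ n in atTop, ∀ y ∈ ball x δ,
      |wn n y - wn n x| ≤ C) {b : ℂ} (hb : b ∈ W) :
    ∀ x ∈ W, ∃ M : ℝ, ∀ᶠ n in atTop, |wn n x - wn n b| ≤ M := by
  set P : ℂ → Prop := fun x => ∃ M : ℝ, ∀ᶠ n in atTop, |wn n x - wn n b| ≤ M with hP
  have key : ∀ x ∈ V, ∃ δ > 0, ball x δ ⊆ V ∧ ∀ y ∈ ball x δ, (P x ↔ P y) := by
    intro x hx
    obtain ⟨δ, hδ, C, hC⟩ := hloc x hx
    obtain ⟨δ', hδ', hδV⟩ := Metric.isOpen_iff.1 hV x hx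
    refine ⟨min δ δ', lt_min hδ hδ', (ball_subset_ball (min_le_right _ _)).trans hδV, ?_⟩
    intro y hy
    have hy' : y ∈ ball x δ := ball_subset_ball (min_le_left _ _) hy
    constructor
    · rintro ⟨M, hM⟩
      refine ⟨C + M, ?_⟩
      filter_upwards [hC, hM] with n h1 h2
      have h3 := h1 y hy'
      calc |wn n y - wn n b| = |(wn n y - wn n x) + (wn n x - wn n b)| := by congr 1; ring
        _ ≤ |wn n y - wn n x| + |wn n x - wn n b| := abs_add_le _ _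
        _ ≤ C + M := add_le_add h3 h2
    · rintro ⟨M, hM⟩
      refine ⟨C + M, ?_⟩
      filter_upwards [hC, hM] with n h1 h2
      have h3 := h1 y hy'
      rw [abs_sub_comm] at h3
      calc |wn n x - wn n b| = |(wn n x - wn n y) + (wn n y - wn n b)| := by congr 1; ring
        _ ≤ |wn n x - wn n y| + |wn n y - wn n b| := abs_add_le _ _
        _ ≤ C + M := add_le_add h3 h2
  have ho1 : IsOpen {x ∈ V | P x} := by
    rw [Metric.isOpen_iff]
    rintro x ⟨hx, hPx⟩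
    obtain ⟨δ, hδ, h1, h2⟩ := key x hx
    exact ⟨δ, hδ, fun y hy => ⟨h1 hy, (h2 y hy).1 hPx⟩⟩
  have ho2 : IsOpen {x ∈ V | ¬ P x} := by
    rw [Metric.isOpen_iff]
    rintro x ⟨hx, hPx⟩
    obtain ⟨δ, hδ, h1, h2⟩ := key x hx
    exact ⟨δ, hδ, fun y hy => ⟨h1 hy, fun h => hPx ((h2 y hy).2 h)⟩⟩
  have hPb : P b := ⟨0, Eventually.of_forall fun n => by simp⟩
  have hsub := IsPreconnected.subset_left_of_subset_union ho1 ho2
    (disjoint_left.2 fun x h1 h2 => h2.2 h1.2)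
    (fun x hx => by
      by_cases h : P x
      · exact Or.inl ⟨hWV hx, h⟩
      · exact Or.inr ⟨hWV hx, h⟩) ⟨b, hb, hWV hb, hPb⟩ hW
  exact fun x hx => (hsub hx).2

/-- the functions of class `C¹` with convergent gradients -/
theorem tp_limit_fderiv {x : ℂ} {wn : ℕ → ℂ → ℝ} {u : ℂ → ℝ} {G : ℂ → ℂ} {δ : ℝ} (hδ : 0 < δ)
    (hd : ∀ᶠ n in atTop, ∀ y ∈ ball x δ, HasFDerivAt (wn n) (innerSL ℝ (cgr (wn n) y)) y)
    (hg : ∀ ε : ℝ, 0 < ε → ∀ᶠ n in atTop, ∀ y ∈ ball x δ, ‖cgr (wn n) y - G y‖ ≤ ε)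
    (hu : ∀ y ∈ ball x δ, Tendsto (fun n => wn n y) atTop (𝓝 (u y))) :
    HasFDerivAt u (innerSL ℝ (G x)) x := by
  refine hasFDerivAt_of_tendstoUniformlyOnFilter (l := atTop) (f := wn)
    (f' := fun n y => innerSL ℝ (cgr (wn n) y)) (g' := fun y => innerSL ℝ (G y)) ?_ ?_ ?_
  · rw [Metric.tendstoUniformlyOnFilter_iff]
    intro ε hε
    have h1 : ∀ᶠ p : ℕ × ℂ in atTop ×ˢ 𝓝 x, (∀ y ∈ ball x δ, ‖cgr (wn p.1) y - G y‖ ≤ ε / 2) ∧
        p.2 ∈ ball x δ := (hg (ε / 2) (by positivity)).prod_mk (ball_mem_nhds x hδ)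
    filter_upwards [h1] with p hp
    rw [dist_eq_norm, ← map_sub, innerSL_apply_norm (𝕜 := ℝ), norm_sub_rev]
    exact (hp.1 _ hp.2).trans_lt (by linarith)
  · have h1 : ∀ᶠ p : ℕ × ℂ in atTop ×ˢ 𝓝 x, (∀ y ∈ ball x δ,
        HasFDerivAt (wn p.1) (innerSL ℝ (cgr (wn p.1) y)) y) ∧ p.2 ∈ ball x δ :=
      hd.prod_mk (ball_mem_nhds x hδ)
    filter_upwards [h1] with p hp
    exact hp.1 _ hp.2
  · filter_upwards [ball_mem_nhds x hδ] with y hy
    exact hu y hy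

/-- a base point in each component of an open set -/
theorem tp_base (V : Set ℂ) : ∃ b : ℂ → ℂ, (∀ x ∈ V, b x ∈ connectedComponentIn V x) ∧
    ∀ x ∈ V, ∀ y ∈ connectedComponentIn V x, b y = b x := by
  classical
  set β : Set ℂ → ℂ := fun W => if h : W.Nonempty then h.some else 0 with hβ
  refine ⟨fun x => β (connectedComponentIn V x), ?_, ?_⟩
  · intro x hx
    have h : (connectedComponentIn V x).Nonempty := ⟨x, mem_connectedComponentIn hx⟩
    change (if h : (connectedComponentIn V x).Nonempty then h.some else 0) ∈ _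
    rw [dif_pos h]
    exact h.some_mem
  · intro x _ y hy
    change β (connectedComponentIn V y) = β (connectedComponentIn V x)
    rw [connectedComponentIn_eq hy]

/-- The conclusion of the extraction theorem -/
structure TExt (un : ℕ → ℂ → ℝ) (Kn : ℕ → Set ℂ) (u : ℂ → ℝ) (K : Set ℂ) (b : ℂ → ℂ) : Prop where
  klim : KLim Kn K
  closed : IsClosed K
  smooth : ContDiffOn ℝ 1 u Kᶜ
  hol : DifferentiableOn ℂ (fun x => (starRingEnd ℂ) (cgr u x)) Kᶜ
  grad : ∀ C, IsCompact C → Disjoint C K → ∀ ε : ℝ, 0 < ε →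
    ∀ᶠ n in atTop, ∀ x ∈ C, ‖cgr (un n) x - cgr u x‖ ≤ ε
  base_mem : ∀ x ∈ Kᶜ, b x ∈ connectedComponentIn Kᶜ x
  base_eq : ∀ x ∈ Kᶜ, ∀ y ∈ connectedComponentIn Kᶜ x, b y = b x
  conv : ∀ C, IsCompact C → Disjoint C K → ∀ ε : ℝ, 0 < ε →
    ∀ᶠ n in atTop, ∀ x ∈ C, |un n x - un n (b x) - u x| ≤ ε

theorem tp_extract {R : ℕ → ℝ} (hR : Tendsto R atTop atTop) {un : ℕ → ℂ → ℝ} {Kn : ℕ → Set ℂ}
    (hop : ∀ n, IsOpen (ball 0 (R n) \ Kn n))
    (hsm : ∀ n, ContDiffOn ℝ 1 (un n) (ball 0 (R n) \ Kn n))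
    (hhol : ∀ n, DifferentiableOn ℂ (fun x => (starRingEnd ℂ) (cgr (un n) x))
      (ball 0 (R n) \ Kn n))
    (hub : ∀ n x r, 0 < r → closedBall x r ⊆ ball 0 (R n) →
      ∫⁻ y in ball x r \ Kn n, ‖cgr (un n) y‖ₑ ^ 2 ≤ ENNReal.ofReal (2 * Real.pi * r)) :
    ∃ (φ : ℕ → ℕ) (u : ℂ → ℝ) (K : Set ℂ) (b : ℂ → ℂ), StrictMono φ ∧
      TExt (fun n => un (φ n)) (fun n => Kn (φ n)) u K b := by
  obtain ⟨φ₁, K, hφ₁, hKc, hK₁⟩ := tp_klim_exists Kn
  have hKo : IsOpen Kᶜ := hKc.isOpen_compl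
  -- balls off `K`
  have hoff : ∀ x ∈ Kᶜ, ∃ ρ > 0, ball x ρ ⊆ Kᶜ ∧ ∀ᶠ n in atTop,
      closedBall x ρ ⊆ ball 0 (R (φ₁ n)) \ Kn (φ₁ n) := by
    intro x hx
    obtain ⟨ε, hε, h1⟩ := hK₁.2 x hx
    obtain ⟨ε', hε', h2⟩ := Metric.isOpen_iff.1 hKo x hx
    refine ⟨min (ε / 2) ε', lt_min (by positivity) hε', (ball_subset_ball (min_le_right _ _)).trans
      h2, ?_⟩
    have h3 : ∀ᶠ n in atTop, ‖x‖ + ε < R (φ₁ n) :=
      (hR.comp hφ₁.tendsto_atTop).eventually_gt_atTop _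
    filter_upwards [h1, h3] with n hn1 hn3
    intro y hy
    rw [mem_closedBall] at hy
    have hy2 : dist y x ≤ ε / 2 := hy.trans (min_le_left _ _)
    refine ⟨?_, fun hyK => ?_⟩
    · rw [mem_ball, dist_zero_right]
      have h4 : ‖y‖ ≤ ‖x‖ + dist y x := by
        rw [dist_eq_norm]
        calc ‖y‖ = ‖x + (y - x)‖ := by rw [add_sub_cancel]
          _ ≤ _ := norm_add_le _ _
      linarith
    · have h5 : y ∈ Kn (φ₁ n) ∩ ball x ε := ⟨hyK, by rw [mem_ball]; linarith⟩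
      rw [hn1] at h5
      exact h5
  -- the gradient bound
  have hgb : ∀ x ∈ Kᶜ, ∃ ρ > 0, ∃ L : ℝ, 0 ≤ L ∧ ball x ρ ⊆ Kᶜ ∧ ∀ᶠ n in atTop,
      ball x ρ ⊆ ball 0 (R (φ₁ n)) \ Kn (φ₁ n) ∧
      ∀ y ∈ ball x ρ, ‖cgr (un (φ₁ n)) y‖ ≤ L := by
    intro x hx
    obtain ⟨ρ, hρ, hρK, h1⟩ := hoff x hx
    refine ⟨ρ / 2, by positivity, Real.sqrt (2 / (ρ / 2)), Real.sqrt_nonneg _,
      (ball_subset_ball (by linarith)).trans hρK, ?_⟩
    filter_upwards [h1] with n hn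
    refine ⟨((ball_subset_ball (by linarith)).trans ball_subset_closedBall).trans hn, ?_⟩
    intro y hy
    have hsub : closedBall y (ρ / 2) ⊆ ball 0 (R (φ₁ n)) \ Kn (φ₁ n) := by
      refine Subset.trans ?_ hn
      intro z hz
      rw [mem_ball] at hy
      rw [mem_closedBall] at hz ⊢
      linarith [dist_triangle z y x]
    have h2 := hub (φ₁ n) y (ρ / 2) (by positivity) (hsub.trans sdiff_subset)
    have h3 : ball y (ρ / 2) \ Kn (φ₁ n) = ball y (ρ / 2) := by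
      rw [sdiff_eq_left]
      exact disjoint_left.2 fun z hz => (hsub (ball_subset_closedBall hz)).2
    rw [h3] at h2
    have h4 := tp_grad_bound (f := fun x => (starRingEnd ℂ) (cgr (un (φ₁ n)) x))
      (show 0 < ρ / 2 by positivity) ((hhol (φ₁ n)).mono (ball_subset_closedBall.trans hsub)) (by
        refine le_trans (le_of_eq ?_) h2
        refine lintegral_congr fun z => ?_
        rw [← ofReal_norm, RCLike.norm_conj, ofReal_norm])
    rw [RCLike.norm_conj] at h4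
    exact Real.le_sqrt_of_sq_le h4
  -- Montel
  obtain ⟨φ₂, F, hφ₂, hFd, hF⟩ := tp_montel hKo
    (f := fun n x => (starRingEnd ℂ) (cgr (un (φ₁ n)) x)) (by
      intro x hx
      obtain ⟨ρ, hρ, L, -, -, h1⟩ := hgb x hx
      refine ⟨ρ, hρ, L, ?_⟩
      filter_upwards [h1] with n hn
      refine ⟨(hhol (φ₁ n)).mono hn.1, fun y hy => ?_⟩
      rw [RCLike.norm_conj]
      exact hn.2 y hy)
  obtain ⟨b, hb1, hb2⟩ := tp_base Kᶜ
  set ψ : ℕ → ℕ := fun n => φ₁ (φ₂ n) with hψ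
  have hψm : StrictMono ψ := hφ₁.comp hφ₂
  -- local Lipschitz bounds
  have hlip : ∀ x ∈ Kᶜ, ∃ ρ > 0, ∃ L : ℝ, 0 ≤ L ∧ ball x ρ ⊆ Kᶜ ∧ ∀ᶠ n in atTop,
      ball x ρ ⊆ ball 0 (R (ψ n)) \ Kn (ψ n) ∧ (∀ y ∈ ball x ρ, ‖cgr (un (ψ n)) y‖ ≤ L) ∧
      ∀ y ∈ ball x ρ, |un (ψ n) y - un (ψ n) x| ≤ L * ‖y - x‖ := by
    intro x hx
    obtain ⟨ρ, hρ, L, hL, hρK, h1⟩ := hgb x hx
    refine ⟨ρ, hρ, L, hL, hρK, ?_⟩
    filter_upwards [hφ₂.tendsto_atTop.eventually h1] with n hn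
    refine ⟨hn.1, hn.2, ?_⟩
    intro y hy
    have hdiff : ∀ z ∈ ball x ρ, DifferentiableAt ℝ (un (ψ n)) z := fun z hz =>
      ((hsm (ψ n)).differentiableOn (by simp) z (hn.1 hz)).differentiableAt
        ((hop (ψ n)).mem_nhds (hn.1 hz))
    rw [← Real.norm_eq_abs]
    refine (convex_ball x ρ).norm_image_sub_le_of_norm_fderiv_le (𝕜 := ℝ) hdiff ?_
      (mem_ball_self hρ) hy
    intro z hz
    rw [tpc_norm]
    exact hn.2 z hz
  -- boundedness at each point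
  have hbdd : ∀ x ∈ Kᶜ, ∃ M : ℝ, ∀ᶠ n in atTop, |un (ψ n) x - un (ψ n) (b x)| ≤ M := by
    intro x hx
    have h1 := tp_bdd_conn hKo (isPreconnected_connectedComponentIn (F := Kᶜ) (x := x))
      (connectedComponentIn_subset _ _) (wn := fun n => un (ψ n)) (by
        intro y hy
        obtain ⟨ρ, hρ, L, hL, -, h2⟩ := hlip y hy
        refine ⟨ρ, hρ, L * ρ, ?_⟩
        filter_upwards [h2] with n hn
        intro z hz
        refine (hn.2.2 z hz).trans ?_
        have h3 : ‖z - y‖ ≤ ρ := by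
          rw [← dist_eq_norm]
          exact (mem_ball.1 hz).le
        gcongr) (hb1 x hx)
    exact h1 x (mem_connectedComponentIn hx)
  -- the base point is locally constant
  have hbloc : ∀ x ∈ Kᶜ, ∀ ρ > 0, ball x ρ ⊆ Kᶜ → ∀ y ∈ ball x ρ, b y = b x := by
    intro x hx ρ hρ hρK y hy
    refine hb2 x hx y ?_
    exact (isPreconnected_ball.subset_connectedComponentIn (mem_ball_self hρ) hρK) hy
  obtain ⟨φ₃, u, hφ₃, hu, -⟩ := tp_ascoli (X := ℂ) (E := ℝ) hKo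
    (f := fun n x => un (ψ n) x - un (ψ n) (b x)) 0 (by
      intro x hx
      obtain ⟨M, hM⟩ := hbdd x hx
      refine ⟨M, ?_⟩
      filter_upwards [hM] with n hn
      rwa [Real.dist_eq, sub_zero]) (by
      intro x hx ε hε
      obtain ⟨ρ, hρ, L, hL, hρK, h2⟩ := hlip x hx
      refine ⟨min ρ (ε / (L + 1)), lt_min hρ (by positivity), ?_⟩
      filter_upwards [h2] with n hn
      intro y hy
      rw [mem_ball, lt_min_iff] at hy
      rw [Real.dist_eq, hbloc x hx ρ hρ hρK y hy.1]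
      have h3 : un (ψ n) y - un (ψ n) (b x) - (un (ψ n) x - un (ψ n) (b x)) =
          un (ψ n) y - un (ψ n) x := by ring
      rw [h3]
      refine (hn.2.2 y hy.1).trans ?_
      have h4 : ‖y - x‖ ≤ ε / (L + 1) := by
        rw [← dist_eq_norm]
        exact hy.2.le
      calc L * ‖y - x‖ ≤ (L + 1) * (ε / (L + 1)) := by gcongr; linarith
        _ = ε := by field_simp)
  set θ : ℕ → ℕ := fun n => ψ (φ₃ n) with hθ
  have hθm : StrictMono θ := hψm.comp hφ₃
  have hKlim : KLim (fun n => Kn (θ n)) K := hK₁.comp (hφ₂.comp hφ₃).tendsto_atTop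
  -- convergence of the gradients on compact sets
  have hgc : ∀ C, IsCompact C → Disjoint C K → ∀ ε : ℝ, 0 < ε →
      ∀ᶠ n in atTop, ∀ x ∈ C, ‖cgr (un (θ n)) x - (starRingEnd ℂ) (F x)‖ ≤ ε := by
    intro C hC hCK ε hε
    have h1 := (tendstoLocallyUniformlyOn_iff_forall_isCompact hKo).1 hF C
      (fun x hx => disjoint_left.1 hCK hx) hC
    rw [Metric.tendstoUniformlyOn_iff] at h1
    filter_upwards [hφ₃.tendsto_atTop.eventually (h1 ε hε)] with n hn
    intro x hx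
    have h2 := hn x hx
    rw [dist_eq_norm, norm_sub_rev] at h2
    have h3 : cgr (un (θ n)) x - (starRingEnd ℂ) (F x) =
        (starRingEnd ℂ) ((starRingEnd ℂ) (cgr (un (θ n)) x) - F x) := by
      rw [map_sub, Complex.conj_conj]
    rw [h3, RCLike.norm_conj]
    exact h2.le
  have huc : ∀ C, IsCompact C → Disjoint C K → ∀ ε : ℝ, 0 < ε →
      ∀ᶠ n in atTop, ∀ x ∈ C, |un (θ n) x - un (θ n) (b x) - u x| ≤ ε := by
    intro C hC hCK ε hε
    have h1 := (tendstoLocallyUniformlyOn_iff_forall_isCompact hKo).1 hu C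
      (fun x hx => disjoint_left.1 hCK hx) hC
    rw [Metric.tendstoUniformlyOn_iff] at h1
    filter_upwards [h1 ε hε] with n hn
    intro x hx
    have h2 := hn x hx
    rw [Real.dist_eq, abs_sub_comm] at h2
    exact h2.le
  -- the derivative of the limit
  have hder : ∀ x ∈ Kᶜ, HasFDerivAt u (innerSL ℝ ((starRingEnd ℂ) (F x))) x := by
    intro x hx
    obtain ⟨ρ, hρ, L, hL, hρK, h1⟩ := hlip x hx
    have hcomp : IsCompact (closedBall x (ρ / 2)) := isCompact_closedBall _ _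
    have hcd : Disjoint (closedBall x (ρ / 2)) K :=
      disjoint_left.2 fun y hy => hρK (closedBall_subset_ball (by linarith) hy)
    have hcgr : ∀ n, ∀ y ∈ ball x ρ, cgr (fun z => un (θ n) z - un (θ n) (b x)) y =
        cgr (un (θ n)) y := by
      intro n y _
      unfold cgr
      rw [fderiv_sub_const]
    refine tp_limit_fderiv (G := fun y => (starRingEnd ℂ) (F y)) (δ := ρ / 2)
      (wn := fun n z => un (θ n) z - un (θ n) (b x)) (by positivity) ?_ ?_ ?_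
    · filter_upwards [hφ₃.tendsto_atTop.eventually h1] with n hn
      intro y hy
      have hy' : y ∈ ball x ρ := ball_subset_ball (by linarith) hy
      have hd : DifferentiableAt ℝ (un (θ n)) y :=
        ((hsm (θ n)).differentiableOn (by simp) y (hn.1 hy')).differentiableAt
          ((hop (θ n)).mem_nhds (hn.1 hy'))
      rw [hcgr n y hy', ← tpc_fderiv]
      exact hd.hasFDerivAt.sub_const _
    · intro ε hε
      filter_upwards [hgc _ hcomp hcd ε hε] with n hn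
      intro y hy
      rw [hcgr n y (ball_subset_ball (by linarith) hy)]
      exact hn y (ball_subset_closedBall hy)
    · intro y hy
      rw [Metric.tendsto_nhds]
      intro ε hε
      filter_upwards [huc _ hcomp hcd (ε / 2) (by positivity)] with n hn
      have h2 := hn y (ball_subset_closedBall hy)
      rw [hbloc x hx ρ hρ hρK y (ball_subset_ball (by linarith) hy)] at h2
      rw [Real.dist_eq]
      linarith
  have hcgru : ∀ x ∈ Kᶜ, cgr u x = (starRingEnd ℂ) (F x) := fun x hx =>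
    tpc_of_hasFDerivAt (hder x hx)
  refine ⟨θ, u, K, b, hθm, hKlim, hKc, ?_, ?_, ?_, hb1, hb2, huc⟩
  · have h01 : (1 : ℕ∞ω) = 0 + 1 := rfl
    rw [h01, contDiffOn_succ_iff_fderiv_of_isOpen hKo]
    refine ⟨fun x hx => (hder x hx).differentiableAt.differentiableWithinAt, by simp, ?_⟩
    rw [contDiffOn_zero]
    have h1 : ContinuousOn (fun x => innerSL ℝ ((starRingEnd ℂ) (F x))) Kᶜ :=
      (innerSL ℝ).continuous.comp_continuousOn
        (Complex.continuous_conj.comp_continuousOn hFd.continuousOn)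
    exact h1.congr fun x hx => (hder x hx).fderiv
  · refine hFd.congr fun x hx => ?_
    rw [hcgru x hx, Complex.conj_conj]
  · intro C hC hCK ε hε
    filter_upwards [hgc C hC hCK ε hε] with n hn
    intro x hx
    rw [hcgru x (disjoint_left.1 hCK hx)]
    exact hn x hx

end Pool.Agent.MP099f24
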