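import Mathlib

/-!
Cut-off functions in the plane with arbitrarily small Dirichlet energy.
-/

open Set Metric Topology MeasureTheory
open scoped ContDiff

namespace Pool.Agent.MP099f24

/-- the basic bump: `1` on `B_1`, supported in `B_2` -/
noncomputable def tpBump : ContDiffBump (0 : ℂ) := ⟨1, 2, one_pos, one_lt_two⟩

/-- the rescaled bump -/
noncomputable def tpEta (s : ℝ) (x : ℂ) : ℝ := tpBump (s⁻¹ • x)

theorem tpEta_contDiff (s : ℝ) : ContDiff ℝ ∞ (tpEta s) :=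
  tpBump.contDiff.comp (contDiff_const_smul s⁻¹)

theorem tpEta_nonneg (s : ℝ) (x : ℂ) : 0 ≤ tpEta s x := tpBump.nonneg

theorem tpEta_le_one (s : ℝ) (x : ℂ) : tpEta s x ≤ 1 := tpBump.le_one

theorem tpEta_one {s : ℝ} (hs : 0 < s) {x : ℂ} (hx : ‖x‖ ≤ s) : tpEta s x = 1 := by
  apply tpBump.one_of_mem_closedBall
  rw [mem_closedBall, dist_zero_right, norm_smul, norm_inv, Real.norm_eq_abs, abs_of_pos hs]
  change s⁻¹ * ‖x‖ ≤ 1
  rw [inv_mul_le_iff₀ hs]
  linarith

theorem tpEta_zero {s : ℝ} (hs : 0 < s) {x : ℂ} (hx : 2 * s ≤ ‖x‖) : tpEta s x = 0 := by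
  apply tpBump.zero_of_le_dist
  rw [dist_zero_right, norm_smul, norm_inv, Real.norm_eq_abs, abs_of_pos hs]
  change 2 ≤ s⁻¹ * ‖x‖
  rw [le_inv_mul_iff₀ hs]
  linarith

theorem tpEta_fderiv {s : ℝ} (x : ℂ) :
    fderiv ℝ (tpEta s) x = s⁻¹ • fderiv ℝ (tpBump : ℂ → ℝ) (s⁻¹ • x) := by
  have h1 : HasFDerivAt (fun x : ℂ => s⁻¹ • x) (s⁻¹ • ContinuousLinearMap.id ℝ ℂ) x :=
    (hasFDerivAt_id x).const_smul s⁻¹
  have h2 : HasFDerivAt (tpBump : ℂ → ℝ) (fderiv ℝ (tpBump : ℂ → ℝ) (s⁻¹ • x)) (s⁻¹ • x) :=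
    ((tpBump.contDiff (n := 1)).differentiable (by simp) _).hasFDerivAt
  have h3 := h2.comp x h1
  rw [ContinuousLinearMap.comp_smul, ContinuousLinearMap.comp_id] at h3
  exact h3.fderiv

theorem tpEta_fderiv_ne {s : ℝ} (hs : 0 < s) {x : ℂ} (hx : fderiv ℝ (tpEta s) x ≠ 0) :
    s ≤ ‖x‖ ∧ ‖x‖ ≤ 2 * s := by
  constructor
  · by_contra hcon
    push Not at hcon
    apply hx
    have h1 : tpEta s =ᶠ[𝓝 x] fun _ => 1 := by
      have h2 : ball (0 : ℂ) s ∈ 𝓝 x := isOpen_ball.mem_nhds (by rwa [mem_ball, dist_zero_right])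
      filter_upwards [h2] with y hy
      rw [mem_ball, dist_zero_right] at hy
      exact tpEta_one hs hy.le
    rw [h1.fderiv_eq, fderiv_fun_const]
    rfl
  · by_contra hcon
    push Not at hcon
    apply hx
    have h1 : tpEta s =ᶠ[𝓝 x] fun _ => 0 := by
      have h2 : (closedBall (0 : ℂ) (2 * s))ᶜ ∈ 𝓝 x := isClosed_closedBall.isOpen_compl.mem_nhds
        (by
          rw [mem_compl_iff, mem_closedBall, dist_zero_right]
          exact not_le.2 hcon)
      filter_upwards [h2] with y hy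
      rw [mem_compl_iff, mem_closedBall, dist_zero_right, not_le] at hy
      exact tpEta_zero hs hy.le
    rw [h1.fderiv_eq, fderiv_fun_const]
    rfl

/-- the energy of the basic bump -/
noncomputable def tpE : ℝ := ∫ x, ‖fderiv ℝ (tpBump : ℂ → ℝ) x‖ ^ 2

theorem tpE_nonneg : 0 ≤ tpE := integral_nonneg fun _ => by positivity

theorem tpEta_integrable (s : ℝ) (hs : 0 < s) : Integrable fun x => ‖fderiv ℝ (tpEta s) x‖ ^ 2 := by
  refine Continuous.integrable_of_hasCompactSupport ?_ ?_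
  · exact ((tpEta_contDiff s).continuous_fderiv (by simp)).norm.pow 2
  · refine HasCompactSupport.intro (isCompact_closedBall (0 : ℂ) (2 * s)) fun x hx => ?_
    have h1 : fderiv ℝ (tpEta s) x = 0 := by
      by_contra hne
      apply hx
      rw [mem_closedBall, dist_zero_right]
      exact (tpEta_fderiv_ne hs hne).2
    rw [h1]
    simp

theorem tpEta_energy {s : ℝ} (hs : 0 < s) : ∫ x, ‖fderiv ℝ (tpEta s) x‖ ^ 2 = tpE := by
  have h1 : ∀ x, ‖fderiv ℝ (tpEta s) x‖ ^ 2 =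
      (s⁻¹) ^ 2 * (fun y => ‖fderiv ℝ (tpBump : ℂ → ℝ) y‖ ^ 2) (s⁻¹ • x) := by
    intro x
    rw [tpEta_fderiv, norm_smul, mul_pow, norm_inv, Real.norm_eq_abs, abs_of_pos hs]
  have h2 := Measure.integral_comp_inv_smul (μ := (volume : Measure ℂ))
    (fun y => ‖fderiv ℝ (tpBump : ℂ → ℝ) y‖ ^ 2) s
  rw [integral_congr_ae (Filter.Eventually.of_forall h1), integral_const_mul, h2]
  rw [Complex.finrank_real_complex, smul_eq_mul, abs_of_pos (by positivity), ← mul_assoc,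
    ← mul_pow, inv_mul_cancel₀ hs.ne', one_pow, one_mul]
  rfl

/-- **Cut-off functions with small energy.** -/
theorem tp_cutoff (R : ℝ) {ε : ℝ} (hε : 0 < ε) : ∃ χ : ℂ → ℝ, ContDiff ℝ ∞ χ ∧
    HasCompactSupport χ ∧ (∀ x, 0 ≤ χ x ∧ χ x ≤ 1) ∧ (∀ x ∈ ball (0 : ℂ) R, χ x = 1) ∧
    ∫ x, ‖fderiv ℝ χ x‖ ^ 2 ≤ ε := by
  obtain ⟨N, hN⟩ := exists_nat_gt (tpE / ε)
  have hN0 : 0 < (N + 1 : ℝ) := by positivity
  set R' : ℝ := max R 1 with hR'
  have hR'1 : 0 < R' := lt_of_lt_of_le one_pos (le_max_right _ _)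
  set s : ℕ → ℝ := fun k => R' * 4 ^ k with hs
  have hs0 : ∀ k, 0 < s k := fun k => by positivity
  have hsR : ∀ k, R ≤ s k := by
    intro k
    have h1 : (1 : ℝ) ≤ 4 ^ k := one_le_pow₀ (by norm_num)
    calc R ≤ R' := le_max_left _ _
      _ = R' * 1 := (mul_one _).symm
      _ ≤ R' * 4 ^ k := by gcongr
  set χ : ℂ → ℝ := fun x => (N + 1 : ℝ)⁻¹ * ∑ k ∈ Finset.range (N + 1), tpEta (s k) x with hχ
  have hsum : ∀ x, fderiv ℝ χ x = (N + 1 : ℝ)⁻¹ •
      ∑ k ∈ Finset.range (N + 1), fderiv ℝ (tpEta (s k)) x := by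
    intro x
    have h1 : ∀ k ∈ Finset.range (N + 1), HasFDerivAt (tpEta (s k)) (fderiv ℝ (tpEta (s k)) x) x :=
      fun k _ => ((tpEta_contDiff (s k)).differentiable (by simp) x).hasFDerivAt
    have h2 := HasFDerivAt.fun_sum h1
    exact (h2.const_mul (N + 1 : ℝ)⁻¹).fderiv
  refine ⟨χ, ?_, ?_, ?_, ?_, ?_⟩
  · exact contDiff_const.mul (ContDiff.sum fun k _ => tpEta_contDiff (s k))
  · refine HasCompactSupport.intro (isCompact_closedBall (0 : ℂ) (2 * s N)) fun x hx => ?_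
    rw [mem_closedBall, dist_zero_right, not_le] at hx
    have h1 : ∀ k ∈ Finset.range (N + 1), tpEta (s k) x = 0 := by
      intro k hk
      refine tpEta_zero (hs0 k) ?_
      have hkN : k ≤ N := Nat.lt_succ_iff.1 (Finset.mem_range.1 hk)
      have h2 : s k ≤ s N := by
        have : (4 : ℝ) ^ k ≤ 4 ^ N := pow_le_pow_right₀ (by norm_num) hkN
        change R' * 4 ^ k ≤ R' * 4 ^ N
        gcongr
      linarith
    change (N + 1 : ℝ)⁻¹ * ∑ k ∈ Finset.range (N + 1), tpEta (s k) x = 0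
    rw [Finset.sum_eq_zero h1, mul_zero]
  · intro x
    constructor
    · exact mul_nonneg (by positivity) (Finset.sum_nonneg fun k _ => tpEta_nonneg _ _)
    · have h1 : ∑ k ∈ Finset.range (N + 1), tpEta (s k) x ≤
          ∑ k ∈ Finset.range (N + 1), (1 : ℝ) := Finset.sum_le_sum fun k _ => tpEta_le_one _ _
      rw [Finset.sum_const, Finset.card_range, nsmul_eq_mul, mul_one] at h1
      change (N + 1 : ℝ)⁻¹ * ∑ k ∈ Finset.range (N + 1), tpEta (s k) x ≤ 1
      rw [inv_mul_le_iff₀ hN0, mul_one]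
      exact_mod_cast h1
  · intro x hx
    rw [mem_ball, dist_zero_right] at hx
    have h1 : ∀ k ∈ Finset.range (N + 1), tpEta (s k) x = 1 := fun k _ =>
      tpEta_one (hs0 k) (hx.le.trans (hsR k))
    change (N + 1 : ℝ)⁻¹ * ∑ k ∈ Finset.range (N + 1), tpEta (s k) x = 1
    rw [Finset.sum_congr rfl h1, Finset.sum_const, Finset.card_range, nsmul_eq_mul, mul_one]
    push_cast
    exact inv_mul_cancel₀ hN0.ne'
  · -- the supports of the derivatives are disjoint
    have hdis : ∀ x k l, k ≠ l → ‖fderiv ℝ (tpEta (s k)) x‖ * ‖fderiv ℝ (tpEta (s l)) x‖ = 0 := by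
      intro x k l hkl
      by_contra hne
      have hk : fderiv ℝ (tpEta (s k)) x ≠ 0 := fun h => hne (by rw [h, norm_zero, zero_mul])
      have hl : fderiv ℝ (tpEta (s l)) x ≠ 0 := fun h => hne (by rw [h, norm_zero, mul_zero])
      obtain ⟨k1, k2⟩ := tpEta_fderiv_ne (hs0 k) hk
      obtain ⟨l1, l2⟩ := tpEta_fderiv_ne (hs0 l) hl
      have key : ∀ a b : ℕ, a < b → s b ≤ ‖x‖ → ‖x‖ ≤ 2 * s a → False := by
        intro a b hab h1 h2
        have h3 : (4 : ℝ) ^ (a + 1) ≤ 4 ^ b := pow_le_pow_right₀ (by norm_num) hab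
        have h4 : s (a + 1) ≤ s b := by
          change R' * 4 ^ (a + 1) ≤ R' * 4 ^ b
          gcongr
        have h5 : s (a + 1) = 4 * s a := by
          change R' * 4 ^ (a + 1) = 4 * (R' * 4 ^ a)
          ring
        have := hs0 a
        linarith
      rcases lt_or_gt_of_ne hkl with h | h
      · exact key k l h l1 k2
      · exact key l k h k1 l2
    have hpt : ∀ x, ‖fderiv ℝ χ x‖ ^ 2 ≤ ((N + 1 : ℝ)⁻¹) ^ 2 *
        ∑ k ∈ Finset.range (N + 1), ‖fderiv ℝ (tpEta (s k)) x‖ ^ 2 := by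
      intro x
      rw [hsum x, norm_smul, mul_pow, norm_inv, Real.norm_eq_abs, abs_of_pos hN0]
      refine mul_le_mul_of_nonneg_left ?_ (by positivity)
      calc ‖∑ k ∈ Finset.range (N + 1), fderiv ℝ (tpEta (s k)) x‖ ^ 2
          ≤ (∑ k ∈ Finset.range (N + 1), ‖fderiv ℝ (tpEta (s k)) x‖) ^ 2 := by
            gcongr
            exact norm_sum_le _ _
        _ = ∑ k ∈ Finset.range (N + 1), ∑ l ∈ Finset.range (N + 1),
            ‖fderiv ℝ (tpEta (s k)) x‖ * ‖fderiv ℝ (tpEta (s l)) x‖ := by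
            rw [sq, Finset.sum_mul_sum]
        _ = ∑ k ∈ Finset.range (N + 1), ‖fderiv ℝ (tpEta (s k)) x‖ ^ 2 := by
            refine Finset.sum_congr rfl fun k hk => ?_
            rw [Finset.sum_eq_single k]
            · rw [sq]
            · intro l _ hlk
              exact hdis x k l (Ne.symm hlk)
            · intro h
              exact absurd hk h
    have hint : Integrable fun x => ((N + 1 : ℝ)⁻¹) ^ 2 *
        ∑ k ∈ Finset.range (N + 1), ‖fderiv ℝ (tpEta (s k)) x‖ ^ 2 :=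
      (integrable_finsetSum _ fun k _ => tpEta_integrable (s k) (hs0 k)).const_mul _
    calc ∫ x, ‖fderiv ℝ χ x‖ ^ 2 ≤ ∫ x, ((N + 1 : ℝ)⁻¹) ^ 2 *
          ∑ k ∈ Finset.range (N + 1), ‖fderiv ℝ (tpEta (s k)) x‖ ^ 2 :=
          integral_mono_of_nonneg (Filter.Eventually.of_forall fun x => by positivity) hint
            (Filter.Eventually.of_forall hpt)
      _ = ((N + 1 : ℝ)⁻¹) ^ 2 * ((N + 1) * tpE) := by
          rw [integral_const_mul, integral_finsetSum _ fun k _ => tpEta_integrable (s k) (hs0 k)]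
          congr 1
          rw [Finset.sum_congr rfl fun k _ => tpEta_energy (hs0 k), Finset.sum_const,
            Finset.card_range, nsmul_eq_mul]
          push_cast
          ring
      _ = tpE / (N + 1) := by field_simp
      _ ≤ ε := by
          rw [div_le_iff₀ hN0]
          rw [div_lt_iff₀ hε] at hN
          nlinarith

end Pool.Agent.MP099f24
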