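import Mathlib

/-!
Boundary bumping and lower bounds for the length of continua.
-/

open Set Metric Topology MeasureTheory
open scoped ENNReal

namespace Pool.Agent.MP099f24

/-- Boundary bumping: a component of `Γ \ U` reaches `closure U`. -/
theorem tp_bump {X : Type*} [TopologicalSpace X] [T2Space X] {Γ : Set X} (hΓ : IsCompact Γ)
    (hc : IsPreconnected Γ) {U : Set X} (hU : IsOpen U) (hne : (Γ ∩ U).Nonempty) {p : X}
    (hp : p ∈ Γ \ U) : (connectedComponentIn (Γ \ U) p ∩ closure U).Nonempty := by
  by_contra hcon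
  rw [not_nonempty_iff_eq_empty] at hcon
  set T : Set X := Γ \ U with hT
  have hTc : IsCompact T := hΓ.diff hU
  have : CompactSpace T := isCompact_iff_compactSpace.mp hTc
  let p' : T := ⟨p, hp⟩
  have hV : IsOpen ((Subtype.val : T → X) ⁻¹' (closure U)ᶜ) :=
    isClosed_closure.isOpen_compl.preimage continuous_subtype_val
  have hcc : connectedComponent p' ⊆ (Subtype.val : T → X) ⁻¹' (closure U)ᶜ := by
    intro y hy
    rw [mem_preimage]
    intro hyU
    have h1 : (Subtype.val : T → X) '' connectedComponent p' ⊆ connectedComponentIn T p := by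
      apply IsPreconnected.subset_connectedComponentIn
      · exact isPreconnected_connectedComponent.image _ continuous_subtype_val.continuousOn
      · exact ⟨p', mem_connectedComponent, rfl⟩
      · rintro _ ⟨y, _, rfl⟩
        exact y.2
    have h2 : (y : X) ∈ connectedComponentIn T p ∩ closure U := ⟨h1 ⟨y, hy, rfl⟩, hyU⟩
    rw [hcon] at h2
    exact h2
  obtain ⟨s, hs⟩ : ∃ s : { s : Set T // IsClopen s ∧ p' ∈ s },
      (s : Set T) ⊆ (Subtype.val : T → X) ⁻¹' (closure U)ᶜ := by
    have : Nonempty { s : Set T // IsClopen s ∧ p' ∈ s } :=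
      ⟨⟨univ, isClopen_univ, mem_univ _⟩⟩
    apply exists_subset_nhds_of_compactSpace
    · intro a b
      refine ⟨⟨a.1 ∩ b.1, a.2.1.inter b.2.1, a.2.2, b.2.2⟩, inter_subset_left, inter_subset_right⟩
    · intro i
      exact i.2.1.isClosed
    · intro y hy
      rw [← connectedComponent_eq_iInter_isClopen] at hy
      exact hV.mem_nhds (hcc hy)
  have hsc : IsCompact ((Subtype.val : T → X) '' (s : Set T)) :=
    (s.2.1.isClosed.isCompact).image continuous_subtype_val
  have hsc' : IsCompact ((Subtype.val : T → X) '' (s : Set T)ᶜ) :=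
    (s.2.1.compl.isClosed.isCompact).image continuous_subtype_val
  have h3 := isPreconnected_closed_iff.1 hc ((Subtype.val : T → X) '' (s : Set T))
    (((Subtype.val : T → X) '' (s : Set T)ᶜ) ∪ closure U) hsc.isClosed
    (hsc'.isClosed.union isClosed_closure) (by
      intro z hz
      by_cases hzU : z ∈ U
      · exact Or.inr (Or.inr (subset_closure hzU))
      · by_cases hzs : (⟨z, hz, hzU⟩ : T) ∈ (s : Set T)
        · exact Or.inl ⟨_, hzs, rfl⟩
        · exact Or.inr (Or.inl ⟨_, hzs, rfl⟩)) ⟨p, hp.1, p', s.2.2, rfl⟩ (by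
      obtain ⟨z, hz, hzU⟩ := hne
      exact ⟨z, hz, Or.inr (subset_closure hzU)⟩)
  obtain ⟨z, -, ⟨y, hy, rfl⟩, ⟨y', hy', h⟩ | hz⟩ := h3
  · have := Subtype.val_injective h
    subst this
    exact hy' hy
  · exact hs hy hz

/-- the length of a connected set is at least the oscillation of any 1-Lipschitz function -/
theorem tp_len_lip {X : Type*} [MetricSpace X] [MeasurableSpace X] [BorelSpace X] {C : Set X}
    (hC : IsPreconnected C) {f : X → ℝ} (hf : LipschitzWith 1 f) {p q : X} (hp : p ∈ C)
    (hq : q ∈ C) : ENNReal.ofReal (f q - f p) ≤ (μH[1] : Measure X) C := by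
  rcases le_total (f q) (f p) with h | h
  · rw [ENNReal.ofReal_of_nonpos (by linarith)]
    exact zero_le
  · have h1 : Icc (f p) (f q) ⊆ f '' C :=
      (hC.image f hf.continuous.continuousOn).Icc_subset ⟨p, hp, rfl⟩ ⟨q, hq, rfl⟩
    have h2 := hf.hausdorffMeasure_image_le (d := 1) zero_le_one C
    calc ENNReal.ofReal (f q - f p) = volume (Icc (f p) (f q)) := (Real.volume_Icc).symm
      _ = (μH[1] : Measure ℝ) (Icc (f p) (f q)) := by rw [hausdorffMeasure_real]
      _ ≤ (μH[1] : Measure ℝ) (f '' C) := measure_mono h1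
      _ ≤ (μH[1] : Measure X) C := by simpa using h2

/-- the length of a connected set is at least the distance of any two of its points -/
theorem tp_len_dist {X : Type*} [MetricSpace X] [MeasurableSpace X] [BorelSpace X] {C : Set X}
    (hC : IsPreconnected C) {p q : X} (hp : p ∈ C) (hq : q ∈ C) :
    ENNReal.ofReal (dist p q) ≤ (μH[1] : Measure X) C := by
  have h := tp_len_lip hC (LipschitzWith.dist_left p) hp hq
  rwa [dist_self, sub_zero, dist_comm] at h

/-- a connected compact set through `p` and `y`: the component of `p` outside the ball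
`B_ρ(y)` has length at least `|p - y| - ρ` -/
theorem tp_len_out {Γ : Set ℂ} (hΓ : IsCompact Γ) (hc : IsPreconnected Γ) {p y : ℂ} {ρ : ℝ}
    (hρ : 0 < ρ) (hy : y ∈ Γ) (hp : p ∈ Γ \ ball y ρ) :
    ENNReal.ofReal (dist p y - ρ) ≤
      (μH[1] : Measure ℂ) (connectedComponentIn (Γ \ ball y ρ) p) := by
  obtain ⟨z, hz, hzc⟩ := tp_bump hΓ hc isOpen_ball ⟨y, hy, mem_ball_self hρ⟩ hp
  have h1 : dist z y ≤ ρ := closure_ball_subset_closedBall hzc
  have h2 := tp_len_lip (isPreconnected_connectedComponentIn (F := Γ \ ball y ρ) (x := p))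
    (LipschitzWith.dist_left y) hz (mem_connectedComponentIn hp)
  refine le_trans (ENNReal.ofReal_le_ofReal ?_) h2
  linarith

theorem tp_comp_closed {X : Type*} [TopologicalSpace X] {K : Set X} (hK : IsClosed K) (x : X) :
    IsClosed (connectedComponentIn K x) := by
  by_cases hx : x ∈ K
  · refine isClosed_of_closure_subset ?_
    refine (isPreconnected_connectedComponentIn.closure).subset_connectedComponentIn ?_ ?_
    · exact subset_closure (mem_connectedComponentIn hx)
    · exact closure_minimal (connectedComponentIn_subset _ _) hK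
  · rw [connectedComponentIn_eq_empty hx]
    exact isClosed_empty

theorem tp_comp_measurable {Γ : Set ℂ} (hΓ : IsClosed Γ) {U : Set ℂ} (hU : IsOpen U) (p : ℂ) :
    MeasurableSet (connectedComponentIn (Γ \ U) p) := by
  have h1 : IsClosed (Γ \ U) := hΓ.sdiff hU
  exact (tp_comp_closed h1 p).measurableSet

/-- Length of a continuum through three points, one of which has density two -/
theorem tp_len_three {Γ : Set ℂ} (hΓ : IsCompact Γ) (hc : IsPreconnected Γ) {p q y : ℂ} {ρ : ℝ}
    (hρ : 0 < ρ) (hp : p ∈ Γ) (hq : q ∈ Γ) (hy : y ∈ Γ)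
    (hd : ENNReal.ofReal (2 * ρ) ≤ (μH[1] : Measure ℂ) (Γ ∩ ball y ρ)) :
    ENNReal.ofReal (min (dist p y + dist y q) (dist p q + 2 * ρ)) ≤ (μH[1] : Measure ℂ) Γ := by
  have hsplit : (μH[1] : Measure ℂ) Γ = (μH[1] : Measure ℂ) (Γ ∩ ball y ρ) +
      (μH[1] : Measure ℂ) (Γ \ ball y ρ) := (measure_inter_add_sdiff Γ measurableSet_ball).symm
  rw [hsplit]
  -- an estimate for a single point
  have hone : ∀ z ∈ Γ, ENNReal.ofReal (dist z y - ρ) ≤ (μH[1] : Measure ℂ) (Γ \ ball y ρ) := by
    intro z hz
    by_cases hzb : z ∈ ball y ρ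
    · rw [ENNReal.ofReal_of_nonpos]
      · exact zero_le
      · have : dist z y < ρ := hzb
        linarith
    · exact (tp_len_out hΓ hc hρ hy ⟨hz, hzb⟩).trans
        (measure_mono (connectedComponentIn_subset _ _))
  by_cases hpb : p ∈ ball y ρ
  · have hpy : dist p y < ρ := hpb
    have hq' := hone q hq
    have h2 : min (dist p y + dist y q) (dist p q + 2 * ρ) ≤ 2 * ρ + (dist q y - ρ) := by
      refine (min_le_left _ _).trans ?_
      rw [dist_comm y q]
      linarith
    refine (ENNReal.ofReal_le_ofReal h2).trans (ENNReal.ofReal_add_le.trans ?_)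
    exact add_le_add hd hq'
  by_cases hqb : q ∈ ball y ρ
  · have hqy : dist q y < ρ := hqb
    have hp' := hone p hp
    have h2 : min (dist p y + dist y q) (dist p q + 2 * ρ) ≤ 2 * ρ + (dist p y - ρ) := by
      refine (min_le_left _ _).trans ?_
      rw [dist_comm y q]
      linarith
    refine (ENNReal.ofReal_le_ofReal h2).trans (ENNReal.ofReal_add_le.trans ?_)
    exact add_le_add hd hp'
  have hpy : ρ ≤ dist p y := not_lt.1 hpb
  have hqy : ρ ≤ dist q y := not_lt.1 hqb
  have hpT : p ∈ Γ \ ball y ρ := ⟨hp, hpb⟩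
  have hqT : q ∈ Γ \ ball y ρ := ⟨hq, hqb⟩
  by_cases hpq : q ∈ connectedComponentIn (Γ \ ball y ρ) p
  · have h3 := tp_len_dist isPreconnected_connectedComponentIn (mem_connectedComponentIn hpT) hpq
    have h2 : min (dist p y + dist y q) (dist p q + 2 * ρ) ≤ 2 * ρ + dist p q := by
      refine (min_le_right _ _).trans ?_
      linarith
    refine (ENNReal.ofReal_le_ofReal h2).trans (ENNReal.ofReal_add_le.trans ?_)
    exact add_le_add hd (h3.trans (measure_mono (connectedComponentIn_subset _ _)))
  · have hdisj : Disjoint (connectedComponentIn (Γ \ ball y ρ) p)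
        (connectedComponentIn (Γ \ ball y ρ) q) := by
      rw [Set.disjoint_left]
      intro z hz1 hz2
      apply hpq
      have e1 := connectedComponentIn_eq hz1
      have e2 := connectedComponentIn_eq hz2
      rw [e1, ← e2]
      exact mem_connectedComponentIn hqT
    have h3 : (μH[1] : Measure ℂ) (connectedComponentIn (Γ \ ball y ρ) p) +
        (μH[1] : Measure ℂ) (connectedComponentIn (Γ \ ball y ρ) q) ≤
        (μH[1] : Measure ℂ) (Γ \ ball y ρ) := by
      rw [← measure_union hdisj (tp_comp_measurable hΓ.isClosed isOpen_ball q)]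
      exact measure_mono (union_subset (connectedComponentIn_subset _ _)
        (connectedComponentIn_subset _ _))
    have h4 := tp_len_out hΓ hc hρ hy hpT
    have h5 := tp_len_out hΓ hc hρ hy hqT
    have h2 : min (dist p y + dist y q) (dist p q + 2 * ρ) ≤
        2 * ρ + ((dist p y - ρ) + (dist q y - ρ)) := by
      refine (min_le_left _ _).trans ?_
      rw [dist_comm y q]
      linarith
    refine (ENNReal.ofReal_le_ofReal h2).trans (ENNReal.ofReal_add_le.trans ?_)
    refine add_le_add hd (le_trans (ENNReal.ofReal_add_le.trans (add_le_add h4 h5)) h3)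

/-- Components of `K ∩ closedBall` reach the sphere when the components of `K` are unbounded. -/
theorem tp_reach {K : Set ℂ} (hK : IsClosed K)
    (hun : ∀ x ∈ K, ¬ Bornology.IsBounded (connectedComponentIn K x)) {a : ℂ} {R : ℝ} {x : ℂ}
    (hx : x ∈ K ∩ closedBall a R) :
    (connectedComponentIn (K ∩ closedBall a R) x ∩ sphere a R).Nonempty := by
  set T : Set ℂ := K ∩ closedBall a R with hT
  have hTc : IsCompact T := (isCompact_closedBall _ _).inter_left hK
  by_contra hcon
  rw [not_nonempty_iff_eq_empty] at hcon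
  have : CompactSpace T := isCompact_iff_compactSpace.mp hTc
  let p' : T := ⟨x, hx⟩
  have hV : IsOpen ((Subtype.val : T → ℂ) ⁻¹' (sphere a R)ᶜ) :=
    isClosed_sphere.isOpen_compl.preimage continuous_subtype_val
  have hcc : connectedComponent p' ⊆ (Subtype.val : T → ℂ) ⁻¹' (sphere a R)ᶜ := by
    intro y hy
    rw [mem_preimage]
    intro hyU
    have h1 : (Subtype.val : T → ℂ) '' connectedComponent p' ⊆ connectedComponentIn T x := by
      apply IsPreconnected.subset_connectedComponentIn
      · exact isPreconnected_connectedComponent.image _ continuous_subtype_val.continuousOn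
      · exact ⟨p', mem_connectedComponent, rfl⟩
      · rintro _ ⟨y, _, rfl⟩
        exact y.2
    have h2 : (y : ℂ) ∈ connectedComponentIn T x ∩ sphere a R := ⟨h1 ⟨y, hy, rfl⟩, hyU⟩
    rw [hcon] at h2
    exact h2
  obtain ⟨s, hs⟩ : ∃ s : { s : Set T // IsClopen s ∧ p' ∈ s },
      (s : Set T) ⊆ (Subtype.val : T → ℂ) ⁻¹' (sphere a R)ᶜ := by
    have : Nonempty { s : Set T // IsClopen s ∧ p' ∈ s } :=
      ⟨⟨univ, isClopen_univ, mem_univ _⟩⟩
    apply exists_subset_nhds_of_compactSpace
    · intro a b
      refine ⟨⟨a.1 ∩ b.1, a.2.1.inter b.2.1, a.2.2, b.2.2⟩, inter_subset_left, inter_subset_right⟩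
    · intro i
      exact i.2.1.isClosed
    · intro y hy
      rw [← connectedComponent_eq_iInter_isClopen] at hy
      exact hV.mem_nhds (hcc hy)
  have hsc : IsCompact ((Subtype.val : T → ℂ) '' (s : Set T)) :=
    (s.2.1.isClosed.isCompact).image continuous_subtype_val
  have hsc' : IsCompact ((Subtype.val : T → ℂ) '' (s : Set T)ᶜ) :=
    (s.2.1.compl.isClosed.isCompact).image continuous_subtype_val
  -- the clopen piece separates the component of `x` in `K`
  apply hun x hx.1
  refine (isBounded_closedBall (x := a) (r := R)).subset ?_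
  have h3 := isPreconnected_closed_iff.1 (isPreconnected_connectedComponentIn (F := K) (x := x))
    ((Subtype.val : T → ℂ) '' (s : Set T))
    (((Subtype.val : T → ℂ) '' (s : Set T)ᶜ) ∪ (ball a R)ᶜ) hsc.isClosed
    (hsc'.isClosed.union isOpen_ball.isClosed_compl) (by
      intro z hz
      have hzK := connectedComponentIn_subset _ _ hz
      by_cases hzU : z ∈ ball a R
      · by_cases hzs : (⟨z, hzK, ball_subset_closedBall hzU⟩ : T) ∈ (s : Set T)
        · exact Or.inl ⟨_, hzs, rfl⟩
        · exact Or.inr (Or.inl ⟨_, hzs, rfl⟩)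
      · exact Or.inr (Or.inr hzU)) ⟨x, mem_connectedComponentIn hx.1, p', s.2.2, rfl⟩
  intro z hz
  by_contra hzb
  have hz' : z ∈ ((Subtype.val : T → ℂ) '' (s : Set T)ᶜ) ∪ (ball a R)ᶜ := by
    right
    intro h
    exact hzb (ball_subset_closedBall h)
  obtain ⟨w, -, ⟨y, hy, rfl⟩, ⟨y', hy', h⟩ | hw⟩ := h3 ⟨z, hz, hz'⟩
  · have := Subtype.val_injective h
    subst this
    exact hy' hy
  · have h4 : (y : ℂ) ∈ sphere a R := by
      rw [mem_sphere]
      exact le_antisymm y.2.2 (not_lt.1 hw)
    exact hs hy h4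

end Pool.Agent.MP099f24
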